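import Mathlib
import Pool.Agent.Helper26.AF.Goals

/-!
Packet EXPB of project AF (helper26).
-/

namespace Pool.Agent.Helper90.AF

open Finset Pool.Agent.Helper26.AF

theorem yy_nonneg {t u : ℝ} (ht : 0 ≤ t) (hu : 0 ≤ u) (R j : ℕ) : 0 ≤ yy t u R j := by
  unfold yy
  exact Finset.sum_nonneg fun r _ => by positivity

theorem submul {A : ℕ → ℝ} (h0 : ∀ k, 0 ≤ A k) (h1 : A 0 = 1) (h2 : ∀ a b, A (a + b) ≤ A a * A b)
    {ι : Type} (s : Finset ι) (j : ι → ℕ) : A (∑ i ∈ s, j i) ≤ ∏ i ∈ s, A (j i) := by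
  classical
  induction s using Finset.induction_on with
  | empty => simp [h1]
  | insert a s ha ih =>
    rw [Finset.sum_insert ha, Finset.prod_insert ha]
    exact (h2 _ _).trans (mul_le_mul_of_nonneg_left ih (h0 _))

theorem goalEXPB (hEXPD : StmtEXPD) : StmtEXPB := by
  intro n R p t C A hp0 hp1 ht hC hA0 hA1 hA2 hA3
  refine (hEXPD n R p t hp0 hp1 ht).trans ?_
  set u : ℝ := p / (1 - p) with hu
  have hu0 : 0 ≤ u := div_nonneg hp0.le (by linarith)
  set S : ℝ := ∑ j ∈ Icc 1 n, yy t u R j * A j / (j.factorial : ℝ) with hS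
  have hterm : ∀ j : ℕ, 0 ≤ yy t u R j * A j / (j.factorial : ℝ) := fun j =>
    div_nonneg (mul_nonneg (yy_nonneg (by linarith) hu0 R j) (hA0 j)) (Nat.cast_nonneg _)
  have hS0 : 0 ≤ S := Finset.sum_nonneg fun j _ => hterm j
  have hin : ∀ q : ℕ, ∑ j ∈ Fintype.piFinset (fun _ : Fin q => Icc 1 n),
          ((n.descFactorial (∑ i, j i) : ℝ) / ∏ i, ((j i).factorial : ℝ)) *
          (1 - p) ^ ((∑ i, j i) * (n - ∑ i, j i) + (∑ i, j i).choose 2) *
          ∏ i, yy t u R (j i) ≤ C * S ^ q := by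
    intro q
    have h1 : S ^ q = ∑ j ∈ Fintype.piFinset (fun _ : Fin q => Icc 1 n),
        ∏ i, (yy t u R (j i) * A (j i) / ((j i).factorial : ℝ)) := by
      rw [← Finset.prod_univ_sum (fun _ : Fin q => Icc 1 n)
        (fun _ j => yy t u R j * A j / (j.factorial : ℝ)), Finset.prod_const, Finset.card_univ,
        Fintype.card_fin]
    rw [h1, Finset.mul_sum]
    refine Finset.sum_le_sum fun j _ => ?_
    have hprod : ∏ i, (yy t u R (j i) * A (j i) / ((j i).factorial : ℝ)) =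
        (∏ i, yy t u R (j i)) * (∏ i, A (j i)) / ∏ i, ((j i).factorial : ℝ) := by
      rw [Finset.prod_div_distrib, Finset.prod_mul_distrib]
    have hy : 0 ≤ ∏ i, yy t u R (j i) := Finset.prod_nonneg fun i _ =>
      yy_nonneg (by linarith) hu0 R _
    have hf : 0 < ∏ i, ((j i).factorial : ℝ) := Finset.prod_pos fun i _ => by
      exact_mod_cast (j i).factorial_pos
    have hk : (n.descFactorial (∑ i, j i) : ℝ) *
        (1 - p) ^ ((∑ i, j i) * (n - ∑ i, j i) + (∑ i, j i).choose 2) ≤ C * ∏ i, A (j i) := by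
      rcases le_or_gt (∑ i, j i) n with h | h
      · exact (hA3 _ h).trans (mul_le_mul_of_nonneg_left (submul hA0 hA1 hA2 univ j) hC)
      · rw [Nat.descFactorial_eq_zero_iff_lt.2 h]
        simp only [Nat.cast_zero, zero_mul]
        exact mul_nonneg hC (Finset.prod_nonneg fun i _ => hA0 _)
    rw [hprod]
    calc ((n.descFactorial (∑ i, j i) : ℝ) / ∏ i, ((j i).factorial : ℝ)) *
          (1 - p) ^ ((∑ i, j i) * (n - ∑ i, j i) + (∑ i, j i).choose 2) *
          ∏ i, yy t u R (j i)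
        = ((n.descFactorial (∑ i, j i) : ℝ) *
          (1 - p) ^ ((∑ i, j i) * (n - ∑ i, j i) + (∑ i, j i).choose 2)) *
          ((∏ i, yy t u R (j i)) / ∏ i, ((j i).factorial : ℝ)) := by ring
      _ ≤ (C * ∏ i, A (j i)) * ((∏ i, yy t u R (j i)) / ∏ i, ((j i).factorial : ℝ)) :=
          mul_le_mul_of_nonneg_right hk (div_nonneg hy hf.le)
      _ = _ := by ring
  calc ∑ q ∈ range (n + 1), (1 / (q.factorial : ℝ)) *
        ∑ j ∈ Fintype.piFinset (fun _ : Fin q => Icc 1 n),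
          ((n.descFactorial (∑ i, j i) : ℝ) / ∏ i, ((j i).factorial : ℝ)) *
          (1 - p) ^ ((∑ i, j i) * (n - ∑ i, j i) + (∑ i, j i).choose 2) *
          ∏ i, yy t u R (j i)
      ≤ ∑ q ∈ range (n + 1), (1 / (q.factorial : ℝ)) * (C * S ^ q) :=
        Finset.sum_le_sum fun q _ => mul_le_mul_of_nonneg_left (hin q) (by positivity)
    _ = C * ∑ q ∈ range (n + 1), S ^ q / (q.factorial : ℝ) := by
        rw [Finset.mul_sum]
        exact Finset.sum_congr rfl fun q _ => by ring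
    _ ≤ C * Real.exp S := mul_le_mul_of_nonneg_left (Real.sum_le_exp_of_nonneg hS0 _) hC

end Pool.Agent.Helper90.AF
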