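import Mathlib
import Pool.Agent.Helper26.AF.Goals2

/-!
Packet NPC of project AF (helper26): number of pairings without pure components of vertices of
degree two.
-/

namespace Pool.Agent.Helper90.AF

open Finset Pool.Agent.Helper26.AF

/-- `C` is a pure set for `τ`. -/
def Pure {X W : Type} (τ : Equiv.Perm (X ⊕ W × Bool)) (C : Set W) : Prop :=
  C.Nonempty ∧ ∀ w ∈ C, ∀ b : Bool, ∃ w' ∈ C, ∃ b' : Bool, τ (Sum.inr (w, b)) = Sum.inr (w', b')

theorem noPure_iff {X W : Type} (τ : Equiv.Perm (X ⊕ W × Bool)) :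
    NoPure τ ↔ ∀ C, ¬ Pure τ C := by
  constructor
  · rintro h C ⟨h1, h2⟩
    obtain ⟨w, hw, b, h3⟩ := h C h1
    obtain ⟨w', hw', b', h4⟩ := h2 w hw b
    exact h3 w' hw' b' h4
  · intro h C h1
    by_contra hne
    push Not at hne
    exact h C ⟨h1, fun w hw b => hne w hw b⟩

/-- pairings and conjugation -/
theorem isPair_permCongr {H H' : Type} (e : H ≃ H') (τ : Equiv.Perm H) :
    IsPair (e.permCongr τ) ↔ IsPair τ := by
  unfold IsPair
  constructor
  · intro h x
    obtain ⟨h1, h2⟩ := h (e x)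
    simp only [Equiv.permCongr_apply, Equiv.symm_apply_apply] at h1 h2
    exact ⟨e.injective h1, fun h3 => h2 (by rw [h3])⟩
  · intro h y
    obtain ⟨h1, h2⟩ := h (e.symm y)
    simp only [Equiv.permCongr_apply, Equiv.symm_apply_apply]
    refine ⟨by rw [h1, Equiv.apply_symm_apply], fun h3 => h2 ?_⟩
    exact e.injective (by rw [h3, Equiv.apply_symm_apply])

/-- renaming of the vertices of degree two -/
def ren (X : Type) {W W' : Type} (e : W ≃ W') : X ⊕ W × Bool ≃ X ⊕ W' × Bool :=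
  Equiv.sumCongr (Equiv.refl X) (Equiv.prodCongr e (Equiv.refl Bool))

theorem pure_ren {X W W' : Type} (e : W ≃ W') (τ : Equiv.Perm (X ⊕ W × Bool)) (C : Set W)
    (h : Pure τ C) : Pure ((ren X e).permCongr τ) (e '' C) := by
  obtain ⟨h1, h2⟩ := h
  refine ⟨h1.image e, ?_⟩
  rintro _ ⟨w, hw, rfl⟩ b
  obtain ⟨w', hw', b', h3⟩ := h2 w hw b
  refine ⟨e w', ⟨w', hw', rfl⟩, b', ?_⟩
  have h4 : (ren X e).symm (Sum.inr (e w, b)) = Sum.inr (w, b) := by
    rw [Equiv.symm_apply_eq]
    rfl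
  rw [Equiv.permCongr_apply, h4, h3]
  rfl

theorem noPure_ren {X W W' : Type} (e : W ≃ W') (τ : Equiv.Perm (X ⊕ W × Bool)) :
    NoPure τ ↔ NoPure ((ren X e).permCongr τ) := by
  rw [noPure_iff, noPure_iff]
  constructor
  · intro h C' hC
    have h1 := pure_ren e.symm _ C' hC
    have h2 : (ren X e.symm).permCongr ((ren X e).permCongr τ) = τ := by
      ext x
      have : ren X e.symm = (ren X e).symm := by
        ext x
        rcases x with x | ⟨w, b⟩ <;> rfl
      rw [this]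
      simp [Equiv.permCongr_apply]
    rw [h2] at h1
    exact h _ h1
  · intro h C hC
    exact h _ (pure_ren e τ C hC)

theorem NPn_congr (X : Type) {W W' : Type} (e : W ≃ W') : NPn X W = NPn X W' := by
  unfold NPn
  refine Nat.card_congr (Equiv.subtypeEquiv (ren X e).permCongr fun τ => ?_)
  rw [isPair_permCongr, noPure_ren e τ]

theorem NPn_empty (hP : StmtPMC) (X W : Type) [Fintype X] [Fintype W] [IsEmpty W] (L : ℕ)
    (hX : Fintype.card X = 2 * L) : NPn X W = Nat.doubleFactorial (2 * L - 1) := by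
  have h1 : Fintype.card (X ⊕ W × Bool) = 2 * L := by
    rw [Fintype.card_sum, Fintype.card_prod, Fintype.card_eq_zero (α := W), hX]
    simp
  rw [← hP (X ⊕ W × Bool) L h1]
  unfold NPn
  refine Nat.card_congr (Equiv.subtypeEquiv (Equiv.refl _) fun τ => ?_)
  constructor
  · exact fun h => h.1
  · exact fun h => ⟨h, fun C hC => isEmptyElim hC.some⟩

/-- the darts with one more vertex of degree two -/
def ee1 (X W : Type) : X ⊕ Option W × Bool ≃ (X ⊕ W × Bool) ⊕ Bool where
  toFun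
    | Sum.inl x => Sum.inl (Sum.inl x)
    | Sum.inr (some w, b) => Sum.inl (Sum.inr (w, b))
    | Sum.inr (none, b) => Sum.inr b
  invFun
    | Sum.inl (Sum.inl x) => Sum.inl x
    | Sum.inl (Sum.inr (w, b)) => Sum.inr (some w, b)
    | Sum.inr b => Sum.inr (none, b)
  left_inv x := by
    rcases x with x | ⟨_ | w, b⟩ <;> rfl
  right_inv x := by
    rcases x with (x | ⟨w, b⟩) | b <;> rfl

/-- the pure sets in terms of `H ⊕ Bool` -/
theorem pure_ee {X W : Type} (τ' : Equiv.Perm ((X ⊕ W × Bool) ⊕ Bool)) (C : Set (Option W)) :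
    Pure ((ee1 X W).symm.permCongr τ') C ↔ C.Nonempty ∧
      (∀ w, some w ∈ C → ∀ b, (∃ w', some w' ∈ C ∧ ∃ b', τ' (Sum.inl (Sum.inr (w, b))) =
          Sum.inl (Sum.inr (w', b'))) ∨ (none ∈ C ∧ ∃ b', τ' (Sum.inl (Sum.inr (w, b))) = Sum.inr b')) ∧
      (none ∈ C → ∀ b, (∃ w', some w' ∈ C ∧ ∃ b', τ' (Sum.inr b) =
          Sum.inl (Sum.inr (w', b'))) ∨ (none ∈ C ∧ ∃ b', τ' (Sum.inr b) = Sum.inr b')) := by
  have key : ∀ (u : Option W) (b : Bool), (∃ w' ∈ C, ∃ b' : Bool,
      (ee1 X W).symm.permCongr τ' (Sum.inr (u, b)) = Sum.inr (w', b')) ↔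
      ((∃ w', some w' ∈ C ∧ ∃ b', τ' (ee1 X W (Sum.inr (u, b))) =
          Sum.inl (Sum.inr (w', b'))) ∨ (none ∈ C ∧ ∃ b', τ' (ee1 X W (Sum.inr (u, b))) =
          Sum.inr b')) := by
    intro u b
    rw [Equiv.permCongr_apply, Equiv.symm_symm]
    constructor
    · rintro ⟨w', hw', b', h⟩
      rw [Equiv.symm_apply_eq] at h
      rcases w' with _ | w'
      · exact Or.inr ⟨hw', b', h⟩
      · exact Or.inl ⟨w', hw', b', h⟩
    · rintro (⟨w', hw', b', h⟩ | ⟨h0, b', h⟩)
      · exact ⟨some w', hw', b', by rw [Equiv.symm_apply_eq]; exact h⟩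
      · exact ⟨none, h0, b', by rw [Equiv.symm_apply_eq]; exact h⟩
  unfold Pure
  constructor
  · rintro ⟨h1, h2⟩
    exact ⟨h1, fun w hw b => (key (some w) b).1 (h2 _ hw b), fun h0 b => (key none b).1 (h2 _ h0 b)⟩
  · rintro ⟨h1, h2, h3⟩
    refine ⟨h1, fun u hu b => ?_⟩
    rcases u with _ | w
    · exact (key none b).2 (h3 hu b)
    · exact (key (some w) b).2 (h2 w hu b)

theorem noPure_ins {X W : Type} {τ : Equiv.Perm (X ⊕ W × Bool)} {h : X ⊕ W × Bool}
    {τ' : Equiv.Perm ((X ⊕ W × Bool) ⊕ Bool)} (hτ : IsPair τ) (hI : IsIns τ h τ') :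
    NoPure τ ↔ NoPure ((ee1 X W).symm.permCongr τ') := by
  rw [noPure_iff, noPure_iff]
  constructor
  · intro hN C' hC'
    rw [pure_ee] at hC'
    obtain ⟨h1, h2, h3⟩ := hC'
    refine hN {w | some w ∈ C'} ⟨?_, ?_⟩
    · obtain ⟨u, hu⟩ := h1
      rcases u with _ | w
      · rcases h3 hu false with ⟨w', hw', -⟩ | ⟨-, b', h4⟩
        · exact ⟨w', hw'⟩
        · rw [hI.a] at h4
          exact absurd h4 (by simp)
      · exact ⟨w, hu⟩
    · intro w hw b
      have hw' : some w ∈ C' := hw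
      by_cases e1 : (Sum.inr (w, b) : X ⊕ W × Bool) = h
      · have h4 : (none : Option W) ∈ C' := by
          rcases h2 w hw' b with ⟨w', -, b', h5⟩ | ⟨h5, -⟩
          · rw [e1, hI.c] at h5
            exact absurd h5 (by simp)
          · exact h5
        rcases h3 h4 true with ⟨w', h5, b', h6⟩ | ⟨-, b', h6⟩
        · rw [hI.b] at h6
          exact ⟨w', h5, b', by rw [e1]; exact Sum.inl_injective h6⟩
        · rw [hI.b] at h6
          exact absurd h6 (by simp)
      · by_cases e2 : (Sum.inr (w, b) : X ⊕ W × Bool) = τ h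
        · have h4 : (none : Option W) ∈ C' := by
            rcases h2 w hw' b with ⟨w', -, b', h5⟩ | ⟨h5, -⟩
            · rw [e2, hI.d] at h5
              exact absurd h5 (by simp)
            · exact h5
          rcases h3 h4 false with ⟨w', h5, b', h6⟩ | ⟨-, b', h6⟩
          · rw [hI.a] at h6
            refine ⟨w', h5, b', ?_⟩
            rw [e2, (hτ h).1]
            exact Sum.inl_injective h6
          · rw [hI.a] at h6
            exact absurd h6 (by simp)
        · rcases h2 w hw' b with ⟨w', h5, b', h6⟩ | ⟨-, b', h6⟩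
          · rw [hI.e _ e1 e2] at h6
            exact ⟨w', h5, b', Sum.inl_injective h6⟩
          · rw [hI.e _ e1 e2] at h6
            exact absurd h6 (by simp)
  · intro hN C hC
    obtain ⟨h1, h2⟩ := hC
    by_cases hh : ∃ w0 ∈ C, ∃ b0 : Bool, h = Sum.inr (w0, b0)
    · obtain ⟨w0, hw0, b0, h0⟩ := hh
      refine hN (insert none (some '' C)) ?_
      rw [pure_ee]
      have hs : ∀ w, (some w ∈ (insert none (some '' C) : Set (Option W))) ↔ w ∈ C := by
        intro w
        simp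
      refine ⟨⟨none, Set.mem_insert _ _⟩, ?_, ?_⟩
      · intro w hw b
        rw [hs] at hw
        by_cases e1 : (Sum.inr (w, b) : X ⊕ W × Bool) = h
        · exact Or.inr ⟨Set.mem_insert _ _, false, by rw [e1, hI.c]⟩
        · by_cases e2 : (Sum.inr (w, b) : X ⊕ W × Bool) = τ h
          · exact Or.inr ⟨Set.mem_insert _ _, true, by rw [e2, hI.d]⟩
          · obtain ⟨w', hw', b', h3⟩ := h2 w hw b
            exact Or.inl ⟨w', (hs w').2 hw', b', by rw [hI.e _ e1 e2, h3]⟩
      · intro _ b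
        cases b
        · exact Or.inl ⟨w0, (hs w0).2 hw0, b0, by rw [hI.a, h0]⟩
        · obtain ⟨w', hw', b', h3⟩ := h2 w0 hw0 b0
          exact Or.inl ⟨w', (hs w').2 hw', b', by rw [hI.b, h0, h3]⟩
    · push Not at hh
      refine hN (some '' C) ?_
      rw [pure_ee]
      have hs : ∀ w, (some w ∈ (some '' C : Set (Option W))) ↔ w ∈ C := by
        intro w
        simp
      refine ⟨h1.image _, ?_, ?_⟩
      · intro w hw b
        rw [hs] at hw
        have e1 : (Sum.inr (w, b) : X ⊕ W × Bool) ≠ h := fun e => hh w hw b e.symm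
        have e2 : (Sum.inr (w, b) : X ⊕ W × Bool) ≠ τ h := by
          intro e
          obtain ⟨w', hw', b', h3⟩ := h2 w hw b
          rw [e, (hτ h).1] at h3
          exact hh w' hw' b' h3
        obtain ⟨w', hw', b', h3⟩ := h2 w hw b
        exact Or.inl ⟨w', (hs w').2 hw', b', by rw [hI.e _ e1 e2, h3]⟩
      · intro hn
        simp at hn

theorem NPn_option (hINS : StmtINS) (X W : Type) [Fintype X] [Fintype W] [DecidableEq X]
    [DecidableEq W] :
    NPn X (Option W) = (Fintype.card X + 2 * Fintype.card W) * NPn X W := by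
  obtain ⟨i1, i2, i3, -⟩ := hINS (X ⊕ W × Bool)
  -- the pairings on `H ⊕ Bool`
  have hA : NPn X (Option W) = Nat.card {τ' : Equiv.Perm ((X ⊕ W × Bool) ⊕ Bool) //
      IsPair τ' ∧ NoPure ((ee1 X W).symm.permCongr τ')} := by
    unfold NPn
    refine (Nat.card_congr (Equiv.subtypeEquiv (ee1 X W).symm.permCongr fun τ' => ?_)).symm
    rw [isPair_permCongr]
  rw [hA]
  choose F hF1 hF2 using i1
  have hcard : Fintype.card (X ⊕ W × Bool) = Fintype.card X + 2 * Fintype.card W := by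
    rw [Fintype.card_sum, Fintype.card_prod, Fintype.card_bool, mul_comm]
  rw [← hcard, ← Nat.card_eq_fintype_card, NPn, ← Nat.card_prod]
  symm
  refine Nat.card_congr (Equiv.ofBijective (fun q : (X ⊕ W × Bool) ×
      {τ : Equiv.Perm (X ⊕ W × Bool) // IsPair τ ∧ NoPure τ} =>
      (⟨F q.2.1 q.1 q.2.2.1, hF2 q.2.1 q.1 q.2.2.1,
        (noPure_ins q.2.2.1 (hF1 q.2.1 q.1 q.2.2.1)).1 q.2.2.2⟩ :
        {τ' : Equiv.Perm ((X ⊕ W × Bool) ⊕ Bool) //
          IsPair τ' ∧ NoPure ((ee1 X W).symm.permCongr τ')})) ⟨?_, ?_⟩)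
  · rintro ⟨h, τ, hτ⟩ ⟨h', τ1, hτ1⟩ e
    have e' : F τ h hτ.1 = F τ1 h' hτ1.1 := congrArg Subtype.val e
    have g1 := hF1 τ h hτ.1
    rw [e'] at g1
    obtain ⟨g2, g3⟩ := i3 τ τ1 h h' _ hτ.1 hτ1.1 g1 (hF1 τ1 h' hτ1.1)
    subst g2
    subst g3
    rfl
  · rintro ⟨τ', hp, hn⟩
    have hne : τ' (Sum.inr false) ≠ Sum.inr true := by
      intro h0
      rw [noPure_iff] at hn
      refine hn {none} ?_
      rw [pure_ee]
      refine ⟨⟨none, rfl⟩, ?_, ?_⟩
      · intro w hw
        simp at hw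
      · intro hn' b
        refine Or.inr ⟨hn', ?_⟩
        cases b
        · exact ⟨true, h0⟩
        · exact ⟨false, by rw [← h0, (hp _).1]⟩
    obtain ⟨τ, h, hτ, hI⟩ := i2 τ' hp hne
    refine ⟨⟨h, τ, hτ, (noPure_ins hτ hI).2 hn⟩, ?_⟩
    apply Subtype.ext
    show F τ h hτ = τ'
    -- uniqueness of the insertion
    have hJ := hF1 τ h hτ
    ext x
    rcases x with x | b
    · by_cases e1 : x = h
      · rw [e1, hJ.c, hI.c]
      · by_cases e2 : x = τ h
        · rw [e2, hJ.d, hI.d]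
        · rw [hJ.e x e1 e2, hI.e x e1 e2]
    · cases b
      · rw [hJ.a, hI.a]
      · rw [hJ.b, hI.b]

theorem goalNPC (hPMC : StmtPMC) (hINS : StmtINS) : StmtNPC := by
  intro X W _ _ _ _ L hX
  have key : ∀ n : ℕ, NPn X (Fin n) =
      Nat.doubleFactorial (2 * L - 1) * ∏ i ∈ range n, (2 * L + 2 * i) := by
    intro n
    induction n with
    | zero =>
      rw [NPn_empty hPMC X (Fin 0) L hX]
      simp
    | succ n ih =>
      rw [NPn_congr X (finSuccEquiv n), NPn_option hINS X (Fin n), ih, prod_range_succ, hX,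
        Fintype.card_fin]
      ring
  rw [NPn_congr X (Fintype.equivFin W), key]

end Pool.Agent.Helper90.AF
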